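import Pool.Agent.L5helper98.CG.Defs2

set_option autoImplicit false

/-! # The total masses of two close weights are close (CG-LAW2, field side) -/

open MeasureTheory ProbabilityTheory Filter Topology Set
open scoped ENNReal BoundedContinuousFunction

namespace Pool.Agent.L5helper84.CG

open Pool.Agent.L5helper98.CG

lemma dst_lt (c : Bool) {u : ℝ} (hu : u ∈ Ico (0 : ℝ) 1) :
    0 ≤ dst c u 0 ∧ dst c u 0 < 1 ∧ (c = true → dst c u 0 ≤ 1 / 2) := by
  obtain ⟨h0, h1⟩ := hu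
  have ha : |u - 0| = u := by rw [sub_zero, abs_of_nonneg h0]
  unfold dst
  rw [ha]
  by_cases hc : c = true
  · simp only [hc, if_true]
    refine ⟨le_min h0 (by linarith), lt_of_le_of_lt (min_le_left _ _) h1, fun _ => ?_⟩
    rcases le_total u (1 / 2) with h | h
    · exact le_trans (min_le_left _ _) h
    · exact le_trans (min_le_right _ _) (by linarith)
  · simp only [hc]
    simp [h0, h1]

lemma dst_mid (c : Bool) {u δ : ℝ} (hδ : 0 < δ) (hu : u ∈ Ico δ (1 - δ)) : δ ≤ dst c u 0 := by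
  obtain ⟨h0, h1⟩ := hu
  have ha : |u - 0| = u := by rw [sub_zero, abs_of_nonneg (by linarith)]
  unfold dst
  rw [ha]
  by_cases hc : c = true
  · simp only [hc, if_true]
    exact le_min h0 (by linarith)
  · simp only [hc]
    simpa using h0

lemma dst_meas (c : Bool) : Measurable fun u : ℝ => dst c u 0 := by
  unfold dst
  split_ifs
  · exact ((measurable_id.sub_const 0).norm).min
      (measurable_const.sub ((measurable_id.sub_const 0).norm))
  · exact (measurable_id.sub_const 0).norm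

lemma cv_meas0 (r : ℝ → ℝ) (μ ε : ℝ) (hr : ContinuousOn r (Ioo 0 1))
    (hε : 0 < ε) : Measurable ((Ico (0 : ℝ) 1).indicator (cv r μ ε)) := by
  have hr' : Measurable ((Ioo (0 : ℝ) 1).indicator r) := by
    rw [← Set.piecewise_eq_indicator]
    exact ContinuousOn.measurable_piecewise hr continuousOn_const measurableSet_Ioo
  have h1 : Measurable (fun d : ℝ => if ε ≤ d then -(μ * Real.log ((Ioo (0 : ℝ) 1).indicator r d))
      else μ * (-Real.log (r ε) + (1 - d / ε) * (ε * deriv (fun t => Real.log (r t)) ε))) := by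
    refine Measurable.ite measurableSet_Ici ?_ ?_
    · exact (measurable_const.mul (Real.measurable_log.comp hr')).neg
    · fun_prop
  have h2 := h1.indicator (measurableSet_Ico (a := (0 : ℝ)) (b := 1))
  convert h2 using 1
  ext d
  by_cases hd : d ∈ Ico (0 : ℝ) 1
  · rw [indicator_of_mem hd, indicator_of_mem hd]
    unfold cv
    by_cases he : ε ≤ d
    · rw [if_pos he, if_pos he, indicator_of_mem (show d ∈ Ioo (0 : ℝ) 1 from
        ⟨lt_of_lt_of_le hε he, hd.2⟩)]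
    · rw [if_neg he, if_neg he]
  · rw [indicator_of_notMem hd, indicator_of_notMem hd]

/-- the singular weight -/
noncomputable def sw (c : Bool) (r : ℝ → ℝ) (μ q ε u : ℝ) : ℝ :=
  Real.exp (-(q * cv r μ ε (dst c u 0)))

lemma sw_meas (c : Bool) (r : ℝ → ℝ) (μ ε q : ℝ)
    (hr : ContinuousOn r (Ioo 0 1)) (hε : 0 < ε) :
    AEStronglyMeasurable (sw c r μ q ε) (volume.restrict (Ico (0 : ℝ) 1)) := by
  have h1 := (cv_meas0 r μ ε hr hε).comp (dst_meas c)
  have h2 : Measurable fun u =>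
      Real.exp (-(q * (Ico (0 : ℝ) 1).indicator (cv r μ ε) (dst c u 0))) :=
    Real.measurable_exp.comp ((measurable_const.mul h1).neg)
  refine (h2.aestronglyMeasurable (μ := volume.restrict (Ico (0 : ℝ) 1))).congr ?_
  filter_upwards [ae_restrict_mem measurableSet_Ico] with u hu
  unfold sw
  rw [indicator_of_mem (show dst c u 0 ∈ Ico (0 : ℝ) 1 from
      ⟨(dst_lt c hu).1, (dst_lt c hu).2.1⟩)]

lemma cv_far {r : ℝ → ℝ} {μ ε d B : ℝ} (hμ : 0 < μ) (h : ε ≤ d) (hB : |Real.log (r d)| ≤ B) :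
    |cv r μ ε d| ≤ μ * B := by
  unfold cv
  rw [if_pos h, abs_neg, abs_mul, abs_of_pos hμ]
  exact mul_le_mul_of_nonneg_left hB hμ.le

lemma cv_near {r : ℝ → ℝ} {μ ε d : ℝ} (hμ : 0 < μ) (hε : 0 < ε) (h0 : 0 ≤ d) (h : ¬ ε ≤ d) :
    |cv r μ ε d| ≤ μ * (|Real.log (r ε)| + |ε * deriv (fun t => Real.log (r t)) ε|) := by
  unfold cv
  rw [if_neg h, abs_mul, abs_of_pos hμ]
  apply mul_le_mul_of_nonneg_left _ hμ.le
  refine (abs_add_le _ _).trans ?_
  rw [abs_neg, abs_mul]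
  have h1 : |1 - d / ε| ≤ 1 := by
    push Not at h
    have h2 : 0 ≤ d / ε := div_nonneg h0 hε.le
    have h3 : d / ε ≤ 1 := (div_le_one hε).2 h.le
    rw [abs_le]
    constructor <;> linarith
  have h4 := mul_le_mul_of_nonneg_right h1 (abs_nonneg (ε * deriv (fun t => Real.log (r t)) ε))
  linarith

lemma sw_le {c : Bool} {r : ℝ → ℝ} {μ q ε u L : ℝ} (h : |cv r μ ε (dst c u 0)| ≤ L) :
    sw c r μ q ε u ≤ Real.exp (|q| * L) := by
  unfold sw
  apply Real.exp_le_exp.2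
  calc -(q * cv r μ ε (dst c u 0)) ≤ |q * cv r μ ε (dst c u 0)| := neg_le_abs _
    _ = |q| * |cv r μ ε (dst c u 0)| := abs_mul _ _
    _ ≤ |q| * L := mul_le_mul_of_nonneg_left h (abs_nonneg _)

lemma sw_bdd {c : Bool} {r : ℝ → ℝ} {μ q ε : ℝ} (hμ : 0 < μ) (hε : 0 < ε) (hε2 : ε < 1 / 2)
    (hB : ∀ δ ∈ Ioo (0 : ℝ) (1 / 2), ∃ B : ℝ, ∀ d : ℝ, δ ≤ d → d < 1 → (c = true → d ≤ 1 / 2) →
      |Real.log (r d)| ≤ B) : ∃ K : ℝ, ∀ u ∈ Ico (0 : ℝ) 1, sw c r μ q ε u ≤ K := by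
  obtain ⟨B, hB⟩ := hB ε ⟨hε, hε2⟩
  refine ⟨Real.exp (|q| * max (μ * B)
    (μ * (|Real.log (r ε)| + |ε * deriv (fun t => Real.log (r t)) ε|))), fun u hu => ?_⟩
  obtain ⟨h0, h1, h2⟩ := dst_lt c hu
  apply sw_le
  by_cases h : ε ≤ dst c u 0
  · exact (cv_far hμ h (hB _ h h1 h2)).trans (le_max_left _ _)
  · exact (cv_near hμ hε h0 h).trans (le_max_right _ _)

lemma sw_mid {c : Bool} {r : ℝ → ℝ} {μ q δ : ℝ} (hμ : 0 < μ) (hδ : 0 < δ) (hδ2 : δ < 1 / 2)
    (hB : ∀ δ ∈ Ioo (0 : ℝ) (1 / 2), ∃ B : ℝ, ∀ d : ℝ, δ ≤ d → d < 1 → (c = true → d ≤ 1 / 2) →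
      |Real.log (r d)| ≤ B) : ∃ K : ℝ, 0 < K ∧ ∀ ε : ℝ, 0 < ε → ε ≤ δ → ∀ u ∈ Ico δ (1 - δ),
      sw c r μ q ε u ≤ K := by
  obtain ⟨B, hB⟩ := hB δ ⟨hδ, hδ2⟩
  refine ⟨Real.exp (|q| * (μ * B)), Real.exp_pos _, fun ε hε hεδ u hu => ?_⟩
  have hu' : u ∈ Ico (0 : ℝ) 1 := ⟨by linarith [hu.1], by linarith [hu.2]⟩
  obtain ⟨h0, h1, h2⟩ := dst_lt c hu'
  have h3 := dst_mid c hδ hu
  exact sw_le (cv_far hμ (hεδ.trans h3) (hB _ h3 h1 h2))

/-- the pointwise bound -/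
lemma point {Ω : Type} (ω : ℝ → Ω → ℝ) (x : Ω)
    (hx : IntegrableOn (fun u => Real.exp (ω u x)) (Ico 0 1)) (s : ℝ → ℝ)
    (hs0 : ∀ u, 0 ≤ s u)
    (hsm : AEStronglyMeasurable s (volume.restrict (Ico (0 : ℝ) 1))) (Ks : ℝ)
    (hsK : ∀ u ∈ Ico (0 : ℝ) 1, s u ≤ Ks) (δ K b : ℝ) (hδ : 0 < δ) (hK : 0 ≤ K)
    (hmid : ∀ u ∈ Ico δ (1 - δ), s u ≤ K) (φ ψ : ℝ → ℝ) (hφ : Measurable φ) (hψ : Measurable ψ)
    (hφ0 : ∀ u, 0 ≤ φ u) (hφb : ∀ u, φ u ≤ b) (hψ0 : ∀ u, 0 ≤ ψ u) (hψb : ∀ u, ψ u ≤ b) :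
    |mass (fun u => φ u * s u) ω x - mass (fun u => ψ u * s u) ω x| ≤
      b * mass ((Ico 0 δ ∪ Ico (1 - δ) 1).indicator s) ω x +
        K * mass (fun u => |φ u - ψ u|) ω x := by
  have hse : Integrable (fun u => s u * Real.exp (ω u x)) (volume.restrict (Ico (0 : ℝ) 1)) := by
    refine Integrable.bdd_mul (c := Ks) hx hsm ?_
    filter_upwards [ae_restrict_mem measurableSet_Ico] with u hu
    rw [Real.norm_eq_abs, abs_of_nonneg (hs0 u)]
    exact hsK u hu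
  have hb0 : 0 ≤ b := (hφ0 0).trans (hφb 0)
  have hwint : ∀ w : ℝ → ℝ, Measurable w → (∀ u, |w u| ≤ b) →
      Integrable (fun u => (w u * s u) * Real.exp (ω u x)) (volume.restrict (Ico (0 : ℝ) 1)) := by
    intro w hw hwb
    have := Integrable.bdd_mul (c := b) hse (hw.aestronglyMeasurable)
      (Eventually.of_forall fun u => by rw [Real.norm_eq_abs]; exact hwb u)
    refine this.congr (Eventually.of_forall fun u => ?_)
    simp only
    ring
  have hφi := hwint φ hφ (fun u => by rw [abs_of_nonneg (hφ0 u)]; exact hφb u)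
  have hψi := hwint ψ hψ (fun u => by rw [abs_of_nonneg (hψ0 u)]; exact hψb u)
  have hdiff : ∀ u, |φ u - ψ u| ≤ b := by
    intro u
    rw [abs_le]
    constructor
    · linarith [hφ0 u, hψb u]
    · linarith [hφb u, hψ0 u]
  have hnear : MeasurableSet (Ico (0 : ℝ) δ ∪ Ico (1 - δ) 1) :=
    measurableSet_Ico.union measurableSet_Ico
  have hni : Integrable (fun u => (Ico (0 : ℝ) δ ∪ Ico (1 - δ) 1).indicator s u *
      Real.exp (ω u x)) (volume.restrict (Ico (0 : ℝ) 1)) := by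
    refine (hse.indicator hnear).congr (Eventually.of_forall fun u => ?_)
    by_cases hu : u ∈ Ico (0 : ℝ) δ ∪ Ico (1 - δ) 1
    · simp only [indicator_of_mem hu]
    · simp only [indicator_of_notMem hu, zero_mul]
  have hdi : Integrable (fun u => |φ u - ψ u| * Real.exp (ω u x))
      (volume.restrict (Ico (0 : ℝ) 1)) := by
    refine Integrable.bdd_mul (c := b) hx ((hφ.sub hψ).norm.aestronglyMeasurable) ?_
    refine Eventually.of_forall fun u => ?_
    rw [Real.norm_eq_abs]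
    simp only [Pi.sub_apply, Real.norm_eq_abs, abs_abs]
    exact hdiff u
  unfold mass
  rw [← integral_sub hφi hψi, ← integral_const_mul, ← integral_const_mul,
    ← integral_add (hni.const_mul b) (hdi.const_mul K)]
  refine (abs_integral_le_integral_abs).trans ?_
  refine integral_mono_ae (hφi.sub hψi).abs ((hni.const_mul b).add (hdi.const_mul K)) ?_
  filter_upwards [ae_restrict_mem measurableSet_Ico] with u hu
  have he : 0 < Real.exp (ω u x) := Real.exp_pos _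
  have e1 : φ u * s u * Real.exp (ω u x) - ψ u * s u * Real.exp (ω u x) =
      (φ u - ψ u) * (s u * Real.exp (ω u x)) := by ring
  rw [e1, abs_mul, abs_of_nonneg (mul_nonneg (hs0 u) he.le)]
  by_cases hu' : u ∈ Ico (0 : ℝ) δ ∪ Ico (1 - δ) 1
  · rw [indicator_of_mem hu']
    have h1 : |φ u - ψ u| * (s u * Real.exp (ω u x)) ≤ b * (s u * Real.exp (ω u x)) :=
      mul_le_mul_of_nonneg_right (hdiff u) (mul_nonneg (hs0 u) he.le)
    have h2 : 0 ≤ K * (|φ u - ψ u| * Real.exp (ω u x)) :=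
      mul_nonneg hK (mul_nonneg (abs_nonneg _) he.le)
    linarith
  · rw [indicator_of_notMem hu']
    have hmem : u ∈ Ico δ (1 - δ) := by
      constructor
      · by_contra h
        push Not at h
        exact hu' (Or.inl ⟨hu.1, h⟩)
      · by_contra h
        push Not at h
        exact hu' (Or.inr ⟨h, hu.2⟩)
    have h1 : |φ u - ψ u| * (s u * Real.exp (ω u x)) ≤ |φ u - ψ u| * (K * Real.exp (ω u x)) :=
      mul_le_mul_of_nonneg_left (mul_le_mul_of_nonneg_right (hmid u hmem) he.le) (abs_nonneg _)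
    linarith

/-- the step for one `ε` -/
lemma eps_close {c : Bool} {r : ℝ → ℝ} {μ q ε : ℝ} {Ω : Type} [MeasurableSpace Ω] {P : Measure Ω}
    {ω : ℝ → Ω → ℝ} {b' η δ K Ks : ℝ} (hη : 0 < η) (hb' : 1 ≤ b') (hδ : 0 < δ) (hK : 0 < K)
    (hmid : ∀ u ∈ Ico δ (1 - δ), sw c r μ q ε u ≤ K)
    (hKs : ∀ u ∈ Ico (0 : ℝ) 1, sw c r μ q ε u ≤ Ks)
    (hsm : AEStronglyMeasurable (sw c r μ q ε) (volume.restrict (Ico (0 : ℝ) 1)))
    (hpi : ∀ᵐ x ∂P, IntegrableOn (fun u => Real.exp (ω u x)) (Ico 0 1))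
    (hpm : ∀ w : ℝ → ℝ, Measurable w → Measurable (mass w ω))
    (hpe : ∀ w : ℝ → ℝ, Measurable w → (∀ u, 0 ≤ w u) → (∃ K, ∀ u, w u ≤ K) →
      ∫⁻ x, ENNReal.ofReal (mass w ω x) ∂P = ENNReal.ofReal (∫ u in Ico (0 : ℝ) 1, w u))
    (h1 : P {x | η / (2 * b') ≤ mass ((Ico 0 δ ∪ Ico (1 - δ) 1).indicator
      (sw c r μ q ε)) ω x} ≤ ENNReal.ofReal (η / (2 * b')))
    {φ ψ : ℝ → ℝ} (hφ : Measurable φ) (hψ : Measurable ψ)
    (hφ0 : ∀ u, 0 ≤ φ u) (hφb : ∀ u, φ u ≤ b') (hψ0 : ∀ u, 0 ≤ ψ u) (hψb : ∀ u, ψ u ≤ b')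
    (hint : ∫ u in Ico (0 : ℝ) 1, |φ u - ψ u| ≤ η ^ 2 / (4 * K)) :
    P {x | η ≤ |mass (fun u => φ u * sw c r μ q ε u) ω x -
      mass (fun u => ψ u * sw c r μ q ε u) ω x|} ≤ ENNReal.ofReal η := by
  have hb'0 : 0 < b' := by linarith
  obtain ⟨D, hD⟩ : ∃ D : ℝ → ℝ, D = fun u => |φ u - ψ u| := ⟨_, rfl⟩
  have hDm : Measurable D := by rw [hD]; exact (hφ.sub hψ).norm
  have hDb : ∀ u, D u ≤ b' := by
    intro u
    rw [hD]
    simp only
    rw [abs_le]
    constructor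
    · linarith [hφ0 u, hψb u]
    · linarith [hφb u, hψ0 u]
  have hexp := hpe D hDm (fun u => by rw [hD]; exact abs_nonneg _) ⟨b', hDb⟩
  have hint' : ∫ u in Ico (0 : ℝ) 1, D u ≤ η ^ 2 / (4 * K) := by rw [hD]; exact hint
  -- Markov
  have hmarkov : P {x | η / 2 ≤ K * mass D ω x} ≤ ENNReal.ofReal (η / 2) := by
    have hsub : {x | η / 2 ≤ K * mass D ω x} ⊆
        {x | ENNReal.ofReal (η / (2 * K)) ≤ ENNReal.ofReal (mass D ω x)} := by
      intro x hx
      have hx' : η / 2 ≤ K * mass D ω x := hx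
      have h2 : η / (2 * K) ≤ mass D ω x := by
        rw [div_le_iff₀ (by positivity)]
        linarith
      exact ENNReal.ofReal_le_ofReal h2
    refine (measure_mono hsub).trans ?_
    refine (meas_ge_le_lintegral_div (hpm D hDm).ennreal_ofReal.aemeasurable
      (by rw [Ne, ENNReal.ofReal_eq_zero, not_le]; positivity) ENNReal.ofReal_ne_top).trans ?_
    rw [hexp]
    rw [← ENNReal.ofReal_div_of_pos (by positivity)]
    apply ENNReal.ofReal_le_ofReal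
    rw [div_le_iff₀ (by positivity)]
    refine hint'.trans (le_of_eq ?_)
    field_simp
    ring
  have hsubset : {x | η ≤ |mass (fun u => φ u * sw c r μ q ε u) ω x -
          mass (fun u => ψ u * sw c r μ q ε u) ω x|} ⊆
      {x | η / (2 * b') ≤ mass ((Ico 0 δ ∪ Ico (1 - δ) 1).indicator (sw c r μ q ε)) ω x} ∪
      ({x | η / 2 ≤ K * mass D ω x} ∪
        {x | ¬ IntegrableOn (fun u => Real.exp (ω u x)) (Ico 0 1)}) := by
    intro x hx
    have hx' : η ≤ |mass (fun u => φ u * sw c r μ q ε u) ω x -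
          mass (fun u => ψ u * sw c r μ q ε u) ω x| := hx
    by_cases hxi : IntegrableOn (fun u => Real.exp (ω u x)) (Ico 0 1)
    · have hp := point ω x hxi (sw c r μ q ε) (fun u => (Real.exp_pos _).le) hsm Ks hKs δ K b'
        hδ hK.le hmid φ ψ hφ hψ hφ0 hφb hψ0 hψb
      rw [← hD] at hp
      by_cases hc1 : η / (2 * b') ≤
          mass ((Ico 0 δ ∪ Ico (1 - δ) 1).indicator (sw c r μ q ε)) ω x
      · exact Or.inl hc1
      · right
        left
        push Not at hc1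
        have hc2 := mul_lt_mul_of_pos_left hc1 hb'0
        have hc3 : b' * (η / (2 * b')) = η / 2 := by field_simp
        rw [hc3] at hc2
        have h6 := le_trans hx' hp
        have h7 : η / 2 ≤ K * mass D ω x := by linarith
        exact h7
    · exact Or.inr (Or.inr hxi)
  have hnull : P {x | ¬ IntegrableOn (fun u => Real.exp (ω u x)) (Ico 0 1)} = 0 :=
    ae_iff.1 hpi
  have hhalf : ENNReal.ofReal (η / (2 * b')) ≤ ENNReal.ofReal (η / 2) := by
    apply ENNReal.ofReal_le_ofReal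
    apply div_le_div_of_nonneg_left hη.le (by norm_num)
    linarith
  refine (measure_mono hsubset).trans ?_
  refine (measure_union_le _ _).trans ?_
  refine (add_le_add (h1.trans hhalf) ((measure_union_le _ _).trans
    (add_le_add hmarkov hnull.le))).trans (le_of_eq ?_)
  rw [add_zero, ← ENNReal.ofReal_add (by positivity) (by positivity)]
  congr 1
  ring

/-- close weights have close masses, uniformly in `ε` -/
theorem field_close (hPOSW : St_POSW) (hINS : St_INS) (hBDD : St_BDD) (c : Bool) (r : ℝ → ℝ)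
    (μ : ℝ) (Ω : ℝ → Type) [∀ ε, MeasurableSpace (Ω ε)] (P : ∀ ε, Measure (Ω ε))
    (ω : ∀ ε, ℝ → Ω ε → ℝ) (hF : Fam c r μ Ω P ω) (q : ℝ) (hq : -1 / μ - 1 / 2 < q) (b : ℝ)
    (η : ℝ) (hη : 0 < η) : ∃ t : ℝ, 0 < t ∧ ∀ φ ψ : ℝ → ℝ, Measurable φ → Measurable ψ →
      (∀ u, 0 ≤ φ u) → (∀ u, φ u ≤ b) → (∀ u, 0 ≤ ψ u) → (∀ u, ψ u ≤ b) →
      ∫ u in Ico (0 : ℝ) 1, |φ u - ψ u| ≤ t →
      ∀ᶠ ε in 𝓝[>] (0 : ℝ), (P ε) {x | η ≤
        |mass (fun u => φ u * Real.exp (-(q * cv r μ ε (dst c u 0)))) (ω ε) x -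
          mass (fun u => ψ u * Real.exp (-(q * cv r μ ε (dst c u 0)))) (ω ε) x|} ≤
        ENNReal.ofReal η := by
  have hμ := hF.mu_pos
  have hfreq : ∃ᶠ ε : ℝ in 𝓝[>] 0, ∃ (Ω : Type) (_ : MeasurableSpace Ω) (P : Measure Ω)
      (_ : IsProbabilityMeasure P) (ω : ℝ → Ω → ℝ), Field c r μ ε P ω := by
    apply Eventually.frequently
    filter_upwards [hF.field] with ε hε
    exact ⟨Ω ε, inferInstance, P ε, hF.prob ε, ω ε, hε⟩
  have hB := hBDD c r μ hF.adm hμ hfreq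
  have hb'1 : 1 ≤ max b 1 := le_max_right _ _
  have hb'0 : 0 < max b 1 := by linarith
  have hη' : 0 < η / (2 * max b 1) := by positivity
  obtain ⟨δ₀, hδ₀, hI⟩ := hINS c r μ Ω P ω hF q hq (η / (2 * max b 1)) hη'
  have hδ : 0 < min δ₀ (1 / 4) := lt_min hδ₀ (by norm_num)
  have hδ4 : min δ₀ (1 / 4) ≤ 1 / 4 := min_le_right _ _
  obtain ⟨K, hK, hmid⟩ := sw_mid (q := q) hμ hδ (by linarith) hB
  refine ⟨η ^ 2 / (4 * K), by positivity, fun φ ψ hφ hψ hφ0 hφb hψ0 hψb hint => ?_⟩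
  have hsmall : ∀ᶠ ε in 𝓝[>] (0 : ℝ), ε ∈ Ioo (0 : ℝ) (min δ₀ (1 / 4)) := Ioo_mem_nhdsGT hδ
  have hI' := hI (min δ₀ (1 / 4)) hδ (min_le_left _ _)
  filter_upwards [hI', hF.field, hsmall] with ε h1 h2 h3
  have hprob := hF.prob ε
  have hε := h3.1
  have hεδ := h3.2.le
  obtain ⟨hpi, hpm, -, hpe⟩ := hPOSW c r μ ε hF.adm hμ hε (by linarith) (Ω ε) (P ε) (ω ε) h2
  obtain ⟨Ks, hKs⟩ := sw_bdd (q := q) hμ hε (by linarith) hB
  have hsm := sw_meas c r μ ε q hF.adm.smooth.continuousOn hε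
  exact eps_close hη hb'1 hδ hK (hmid ε hε hεδ) hKs hsm hpi hpm hpe h1 hφ hψ hφ0
    (fun u => (hφb u).trans (le_max_left _ _)) hψ0
    (fun u => (hψb u).trans (le_max_left _ _)) hint

end Pool.Agent.L5helper84.CG
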